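import Pool.Agent.H.MP_bc0af3_ag.NP

namespace Pool.Agent.H.MP_bc0af3_ag
open Polynomial

variable (k : Type*) [Field k] (r : ℕ)

noncomputable def xx : P3 k := MvPolynomial.X 0
noncomputable def yy : P3 k := MvPolynomial.X 1
noncomputable def vv : P3 k := MvPolynomial.X 2
noncomputable def ww : P3 k := xx k * yy k + vv k ^ (r + 2)
noncomputable def zz : P3 k := vv k + ww k r ^ (r + 3)
noncomputable def ss : P3 k := ww k r ^ (r + 2) - xx k ^ (2 * r + 2) * ww k r
noncomputable def bb : P3 k := yy k - xx k ^ (2 * r + 1) * (ww k r * (ww k r ^ (r + 2)) ^ (r + 2)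
  + (xx k ^ (2 * r + 2)) ^ (r + 1) * ww k r ^ (r + 2) * ss k r)
noncomputable def YY : P3 k := bb k r ^ (r + 2) - xx k ^ (r + 1) * bb k r
  - xx k ^ r * (zz k r ^ (r + 2) - ss k r ^ (r + 3))
noncomputable def dd : (P3 k)[X] := X * C (ww k r) ^ (r + 2)
  + C (xx k) ^ (r + 1) * X ^ (r + 2) * (C (ww k r) + C (xx k) * X)
noncomputable def eps : P3 k →ₐ[k] (P3 k)[X] :=
  MvPolynomial.aeval ![C (xx k), C (yy k) + X + C (xx k) ^ (r + 1) * dd k r ^ (r + 2),
    C (vv k) - C (xx k) * dd k r]

theorem aev_aux {A B : Type*} [CommRing A] [CommRing B] [Algebra A B] (b : B) (c d : A) (n : ℕ) :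
    aeval b (X ^ n - (C c * X + C d)) = b ^ n - (algebraMap A B c * b + algebraMap A B d) := by
  simp

theorem xx_ne : xx k ≠ 0 := MvPolynomial.X_ne_zero _

theorem hom_ext {R : Type*} [CommRing R] [IsDomain R] {α β : P3 k →+* R}
    (h0 : ∀ c, α (MvPolynomial.C c) = β (MvPolynomial.C c)) (hx : α (xx k) = β (xx k))
    (hx0 : α (xx k) ≠ 0) (hw : α (ww k r) = β (ww k r)) (hz : α (zz k r) = β (zz k r)) :
    α = β := by
  have hv : α (vv k) = β (vv k) := by
    simp only [zz, map_add, map_pow, hw] at hz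
    exact add_right_cancel hz
  have hy : α (yy k) = β (yy k) := by
    simp only [ww, map_add, map_pow, map_mul, hv, ← hx] at hw
    exact mul_left_cancel₀ hx0 (add_right_cancel hw)
  refine MvPolynomial.ringHom_ext h0 fun i => ?_
  fin_cases i
  exacts [hx, hy, hv]

theorem eps_x : eps k r (xx k) = C (xx k) := by simp [eps, xx]

theorem eps_C (c : k) : eps k r (MvPolynomial.C c) = C (MvPolynomial.C c) := by
  simp [eps, Polynomial.algebraMap_apply]

variable [hp : Fact (r + 2).Prime] [CharP k (r + 2)]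

theorem eps_w : eps k r (ww k r) = C (ww k r) + C (xx k) * X := by
  have hy : eps k r (yy k) = C (yy k) + X + C (xx k) ^ (r + 1) * dd k r ^ (r + 2) := by
    simp [eps, yy]
  have hv : eps k r (vv k) = C (vv k) - C (xx k) * dd k r := by simp [eps, vv]
  rw [ww, map_add, map_mul, map_pow, eps_x, hy, hv, sub_pow_char, C_add, C_mul, C_pow]
  ring

theorem eps_z : eps k r (zz k r) = C (zz k r) := by
  have hv : eps k r (vv k) = C (vv k) - C (xx k) * dd k r := by simp [eps, vv]
  rw [zz, map_add, map_pow, eps_w, hv, pow_succ _ (r + 2), add_pow_char, C_add, C_pow, dd]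
  ring

theorem A1 (b : P3 k) : (eps k r b).coeff 0 = b := by
  have := hom_ext k r (α := (evalRingHom 0).comp (eps k r : P3 k →+* _)) (β := RingHom.id _)
    (by simp [eps_C]) (by simp [eps_x]) (by simpa [eps_x] using xx_ne k) (by simp [eps_w])
    (by simp [eps_z])
  rw [coeff_zero_eq_eval_zero]
  exact DFunLike.congr_fun this b

theorem A2 (b : P3 k) : (eps k r b).map (eps k r : P3 k →+* _)
    = aeval (C X + X : (P3 k)[X][X]) (eps k r b) := by
  have := hom_ext k r (R := (P3 k)[X][X])
    (α := (mapRingHom (eps k r : P3 k →+* (P3 k)[X])).comp (eps k r : P3 k →+* (P3 k)[X]))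
    (β := (aeval (R := P3 k) (C X + X : (P3 k)[X][X]) : (P3 k)[X] →+* (P3 k)[X][X]).comp
      (eps k r : P3 k →+* (P3 k)[X]))
    (by simp [eps_C, Polynomial.algebraMap_apply]) (by simp [eps_x, Polynomial.algebraMap_apply])
    (by simpa [eps_x] using xx_ne k)
    (by simp [eps_w, eps_x, Polynomial.algebraMap_apply]; ring)
    (by simp [eps_z, Polynomial.algebraMap_apply])
  exact DFunLike.congr_fun this b

noncomputable def ev (a : P3 k) : P3 k →ₐ[k] P3 k :=
  ((aeval a : (P3 k)[X] →ₐ[P3 k] P3 k).restrictScalars k).comp (eps k r)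

omit hp in
theorem ev_apply (a b : P3 k) : ev k r a b = (eps k r b).eval a := by simp [ev]

theorem ev_inv (a : P3 k) (ha : eps k r a = C a) :
    (ev k r (-a)).comp (ev k r a) = AlgHom.id _ _ := by
  apply AlgHom.coe_ringHom_injective
  refine hom_ext k r (by simp) (by simp [ev_apply, eps_x]) (by simpa [ev_apply, eps_x] using xx_ne k)
    (by simp [ev_apply, eps_x, eps_w, ha]) (by simp [ev_apply, eps_z])

noncomputable def phi : P3 k ≃ₐ[k] P3 k :=
  AlgEquiv.ofAlgHom (ev k r (xx k)) (ev k r (-xx k))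
    (by simpa using ev_inv k r (-xx k) (by simp [eps_x])) (ev_inv k r _ (eps_x k r))

theorem phi_apply (b : P3 k) : phi k r b = (eps k r b).eval (xx k) := ev_apply k r _ _

theorem phi_x : phi k r (xx k) = xx k := by simp [phi_apply, eps_x]
theorem phi_z : phi k r (zz k r) = zz k r := by simp [phi_apply, eps_z]
theorem phi_w : phi k r (ww k r) = ww k r + xx k ^ 2 := by simp [phi_apply, eps_w, sq]

theorem phi_s : phi k r (ss k r) = ss k r := by
  rw [ss, map_sub, map_mul, map_pow, map_pow, phi_w, phi_x, add_pow_char]; ring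

theorem x_b : xx k * bb k r = ww k r - zz k r ^ (r + 2) + ss k r ^ (r + 3) := by
  have h1 : ss k r ^ (r + 2) = (ww k r ^ (r + 2)) ^ (r + 2)
      - (xx k ^ (2 * r + 2)) ^ (r + 2) * ww k r ^ (r + 2) := by
    rw [ss, sub_pow_char, mul_pow]
  have h2 : xx k * yy k = ww k r - vv k ^ (r + 2) := by rw [ww]; ring
  have h3 : ss k r = ww k r ^ (r + 2) - xx k ^ (2 * r + 2) * ww k r := rfl
  rw [zz, add_pow_char, pow_succ (ss k r) (r + 2), h1, bb]
  linear_combination h2 - (ww k r ^ (r + 2)) ^ (r + 2) * h3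

theorem phi_b : phi k r (bb k r) = bb k r + xx k := by
  apply mul_left_cancel₀ (xx_ne k)
  have := congrArg (phi k r) (x_b k r)
  rw [map_mul, phi_x, map_add, map_sub, map_pow, map_pow, phi_w, phi_z, phi_s] at this
  linear_combination this - x_b k r

theorem x_Y : xx k ^ (r + 2) * YY k r + (zz k r ^ (r + 2) - ss k r ^ (r + 3)) ^ (r + 2)
    = ss k r := by
  have h1 := congrArg (· ^ (r + 2)) (x_b k r)
  simp only [mul_pow] at h1
  rw [show ww k r - zz k r ^ (r + 2) + ss k r ^ (r + 3)
    = ww k r - (zz k r ^ (r + 2) - ss k r ^ (r + 3)) by ring, sub_pow_char] at h1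
  have h3 : ss k r = ww k r ^ (r + 2) - xx k ^ (2 * r + 2) * ww k r := rfl
  rw [YY]
  linear_combination h1 - xx k ^ (2 * r + 2) * x_b k r - h3

theorem phi_Y : phi k r (YY k r) = YY k r := by
  apply mul_left_cancel₀ (pow_ne_zero (r + 2) (xx_ne k))
  have := congrArg (phi k r) (x_Y k r)
  simp only [map_add, map_sub, map_mul, map_pow, phi_x, phi_z, phi_s] at this
  linear_combination this - x_Y k r

noncomputable def pr : P4 k →ₐ[k] P3 k := MvPolynomial.aeval ![xx k, YY k r, zz k r, ss k r]

theorem phi_pr (G : P4 k) : phi k r (pr k r G) = pr k r G := by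
  have : (phi k r : P3 k →ₐ[k] P3 k).comp (pr k r) = pr k r := by
    ext1 i
    fin_cases i <;> simp [pr, phi_x, phi_Y, phi_z, phi_s]
  exact DFunLike.congr_fun this G

theorem ker_pr (G : P4 k) : pr k r G = 0 ↔ F1 k (r + 2) ∣ G := by
  refine ⟨fun h => ?_, fun ⟨Q, hQ⟩ => ?_⟩
  swap
  · have : pr k r (F1 k (r + 2)) = 0 := by
      simp [pr, F1, F0]
      linear_combination x_Y k r
    rw [hQ, map_mul, this, zero_mul]
  rw [← ker_rho1 _ hp.out.ne_zero]
  let a := fun i => algebraMap (P3 k) (KK k) (MvPolynomial.X i)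
  let q : (KK k)[X] := X ^ (r + 2) - (C (a 0 ^ (2 * r + 2)) * X + C (a 2))
  have hq : q.degree ≠ 0 := by
    have : q.degree = (r + 2 : ℕ) := by
      simp only [q]
      rw [degree_sub_eq_left_of_degree_lt, degree_X_pow]
      rw [degree_X_pow]
      refine lt_of_le_of_lt degree_linear_le ?_
      exact_mod_cast (by omega : 1 < r + 2)
    rw [this]
    exact_mod_cast (by omega : r + 2 ≠ 0)
  let o := algebraMap (KK k) (AdjoinRoot q)
  have hi : Function.Injective o := AdjoinRoot.of.injective_of_degree_ne_zero hq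
  let W := AdjoinRoot.root q
  have hW : W ^ (r + 2) - o (a 0) ^ (2 * r + 2) * W = o (a 2) := by
    have : aeval W q = 0 := by rw [AdjoinRoot.aeval_eq, AdjoinRoot.mk_self]
    simp only [q, map_sub, map_add, map_mul, map_pow, aeval_X, aeval_C] at this
    linear_combination this
  have ha : a 0 ≠ 0 := am_ne 0
  have hu : o (a 0) * o (a 0)⁻¹ = 1 := by rw [← map_mul, mul_inv_cancel₀ ha, map_one]
  let θ : P3 k →ₐ[k] AdjoinRoot q := MvPolynomial.aeval
    ![o (a 0), o (a 0)⁻¹ * (W - (o (a 1) - W ^ (r + 3)) ^ (r + 2)), o (a 1) - W ^ (r + 3)]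
  have tx : θ (xx k) = o (a 0) := by simp [θ, xx]
  have tw : θ (ww k r) = W := by
    simp only [θ, ww, xx, yy, vv, map_add, map_mul, map_pow, MvPolynomial.aeval_X, Matrix.cons_val]
    rw [← mul_assoc, hu]; ring
  have tz : θ (zz k r) = o (a 1) := by
    rw [zz, map_add, map_pow, tw]; simp [θ, vv]
  have ts : θ (ss k r) = o (a 2) := by
    rw [ss, map_sub, map_mul, map_pow, map_pow, tw, tx, hW]
  have tY : θ (YY k r) = o (algebraMap (P3 k) (KK k) (f0 k (r + 2) + MvPolynomial.X 2)
      / a 0 ^ (r + 2)) := by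
    have := congrArg θ (x_Y k r)
    simp only [map_add, map_sub, map_mul, map_pow, tx, tz, ts] at this
    rw [div_eq_mul_inv, ← inv_pow]
    simp only [f0, map_add, map_sub, map_mul, map_pow, map_neg]
    have h2 : o (a 0) ^ (r + 2) * o (a 0)⁻¹ ^ (r + 2) = 1 := by rw [← mul_pow, hu, one_pow]
    change _ = (-(o (a 1) ^ (r + 2) - o (a 2) ^ (r + 3)) ^ (r + 2) + o (a 2)) * _
    linear_combination o (a 0)⁻¹ ^ (r + 2) * this - θ (YY k r) * h2
  have : θ.comp (pr k r) = (IsScalarTower.toAlgHom k (KK k) (AdjoinRoot q)).comp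
      (rho (r + 2) (f0 k (r + 2) + MvPolynomial.X 2)) := by
    ext1 i
    fin_cases i
    · simpa [pr, rho, o, a] using tx
    · simpa [pr, rho, o, a] using tY
    · simpa [pr, rho, o, a] using tz
    · simpa [pr, rho, o, a] using ts
  have h2 := DFunLike.congr_fun this G
  rw [AlgHom.comp_apply, h, map_zero] at h2
  exact hi (by rw [map_zero]; exact h2.symm)

theorem gen (g : P3 k) : ∃ q : (pr k r).range[X], aeval (bb k r) q = g := by
  let A := (pr k r).range
  let S := (Algebra.adjoin A {bb k r}).restrictScalars k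
  have hA : ∀ G, pr k r G ∈ S := fun G =>
    (Algebra.adjoin A {bb k r}).algebraMap_mem ⟨_, G, rfl⟩
  have hx : xx k ∈ S := by simpa [pr] using hA (MvPolynomial.X 0)
  have hz : zz k r ∈ S := by simpa [pr] using hA (MvPolynomial.X 2)
  have hs : ss k r ∈ S := by simpa [pr] using hA (MvPolynomial.X 3)
  have hb : bb k r ∈ S := Algebra.self_mem_adjoin_singleton A _
  have hw : ww k r ∈ S := by
    have : ww k r = xx k * bb k r + zz k r ^ (r + 2) - ss k r ^ (r + 3) := by rw [x_b]; ring
    rw [this]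
    exact sub_mem (add_mem (mul_mem hx hb) (pow_mem hz _)) (pow_mem hs _)
  have hv : vv k ∈ S := by
    have : vv k = zz k r - ww k r ^ (r + 3) := by rw [zz]; ring
    rw [this]
    exact sub_mem hz (pow_mem hw _)
  have hy : yy k ∈ S := by
    have : yy k = bb k r + xx k ^ (2 * r + 1) * (ww k r * (ww k r ^ (r + 2)) ^ (r + 2)
      + (xx k ^ (2 * r + 2)) ^ (r + 1) * ww k r ^ (r + 2) * ss k r) := by rw [bb]; ring
    rw [this]
    exact add_mem hb (mul_mem (pow_mem hx _) (add_mem (mul_mem hw (pow_mem (pow_mem hw _) _))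
      (mul_mem (mul_mem (pow_mem (pow_mem hx _) _) (pow_mem hw _)) hs)))
  have : g ∈ S := by
    induction g using MvPolynomial.induction_on with
    | C a => exact S.algebraMap_mem a
    | add a b ha hb => exact add_mem ha hb
    | mul_X a i ha =>
      refine mul_mem ha ?_
      fin_cases i
      exacts [hx, hy, hv]
  have h2 : g ∈ Algebra.adjoin A {bb k r} := this
  rw [Algebra.adjoin_singleton_eq_range_aeval] at h2
  exact h2

theorem inv_mem {g : P3 k} (hg : phi k r g = g) : ∃ G, pr k r G = g := by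
  classical
  obtain ⟨q, hq⟩ := gen k r g
  let c : (pr k r).range := ⟨_, MvPolynomial.X 0 ^ (r + 1), rfl⟩
  let d : (pr k r).range := ⟨_, MvPolynomial.X 1 + MvPolynomial.X 0 ^ r
    * (MvPolynomial.X 2 ^ (r + 2) - MvPolynomial.X 3 ^ (r + 3)), rfl⟩
  let m : (pr k r).range[X] := X ^ (r + 2) - (C c * X + C d)
  have hlt : (C c * X + C d).degree < ((r + 2 : ℕ) : WithBot ℕ) :=
    lt_of_le_of_lt degree_linear_le (by exact_mod_cast (by omega : 1 < r + 2))
  have hm : m.Monic := monic_X_pow_sub hlt
  have hmd : m.degree = (r + 2 : ℕ) := by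
    simp only [m]
    rw [degree_sub_eq_left_of_degree_lt, degree_X_pow]
    rwa [degree_X_pow]
  have h0 : aeval (bb k r) m = 0 := by
    have e1 : algebraMap _ (P3 k) c = xx k ^ (r + 1) := by
      change pr k r _ = _
      simp [pr]
    have e2 : algebraMap _ (P3 k) d = YY k r + xx k ^ r * (zz k r ^ (r + 2) - ss k r ^ (r + 3)) := by
      change pr k r _ = _
      simp [pr]
    refine (aev_aux _ c d _).trans ?_
    rw [e1, e2, YY]
    ring
  rw [← aeval_modByMonic_eq_self_of_root h0] at hq
  have hd := degree_modByMonic_lt q hm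
  rw [hmd] at hd
  set u := q %ₘ m
  have h1 : ∀ β, phi k r (aeval β u) = aeval (phi k r β) u := by
    intro β
    induction u using Polynomial.induction_on' with
    | add a b ha hb => simp only [map_add, ha, hb]
    | monomial n a =>
      obtain ⟨_, G, rfl⟩ := a
      simp [aeval_monomial, phi_pr]
  have h2 : ∀ n : ℕ, aeval (bb k r + n * xx k) u = g := by
    intro n
    induction n with
    | zero => simpa using hq
    | succ n ih =>
      rw [← hg, ← ih, h1, map_add, map_mul, map_natCast, phi_b, phi_x]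
      congr 2; push_cast; ring
  have h3 : u.map (algebraMap _ (P3 k)) - C g = 0 := by
    apply eq_zero_of_degree_lt_of_eval_finset_eq_zero
      ((Finset.range (r + 2)).image fun n : ℕ => bb k r + n * xx k)
    · rw [Finset.card_image_of_injOn, Finset.card_range]
      · refine lt_of_le_of_lt (degree_sub_le _ _) (max_lt (degree_map_le.trans_lt hd) ?_)
        exact lt_of_le_of_lt degree_C_le (by exact_mod_cast (by omega : 0 < r + 2))
      · intro i hi j hj hij
        have := mul_right_cancel₀ (xx_ne k) (add_left_cancel hij)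
        exact CharP.natCast_injOn_Iio (P3 k) (r + 2) (by simpa using hi) (by simpa using hj) this
    · intro x hx
      obtain ⟨n, -, rfl⟩ := Finset.mem_image.1 hx
      rw [eval_sub, eval_C, eval_map_algebraMap, h2, sub_self]
  have h4 := congrArg (coeff · 0) (sub_eq_zero.1 h3)
  simp only [coeff_map, coeff_C_zero] at h4
  exact h4 ▸ (u.coeff 0).2

theorem x_dvd (g : P3 k) : xx k ∣ phi k r g - g := by
  have := sub_dvd_eval_sub (xx k) 0 (eps k r g)
  rwa [sub_zero, ← coeff_zero_eq_eval_zero, A1, ← phi_apply] at this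

end Pool.Agent.H.MP_bc0af3_ag
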