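import Pool.Agent.H.MP_bc0af3_ag.Ker

namespace Pool.Agent.H.MP_bc0af3_ag
open MvPolynomial
open Finsupp (weight)

variable (k : Type*) [Field k] (p : ℕ)

abbrev P3 := MvPolynomial (Fin 3) k
abbrev P4 := MvPolynomial (Fin 4) k
abbrev P5 := MvPolynomial (Option (Fin 4)) k
abbrev KK := FractionRing (P3 k)

def io : Fin 3 → Fin 4 := ![0, 2, 3]

noncomputable def f0 : P3 k := -(X 1 ^ p - X 2 ^ (p + 1)) ^ p
noncomputable def F0 : P4 k := X 0 ^ p * X 1 + (X 2 ^ p - X 3 ^ (p + 1)) ^ p
noncomputable def F1 : P4 k := F0 k p - X 3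

theorem F0_eq : F0 k p = X 0 ^ p * X 1 - rename io (f0 k p) := by
  simp [F0, f0, io]

theorem F1_eq : F1 k p = X 0 ^ p * X 1 - rename io (f0 k p + X 2) := by
  simp [F1, F0, f0, io]; ring

variable {k}

noncomputable def rho (f : P3 k) : P4 k →ₐ[k] KK k :=
  aeval ![algebraMap (P3 k) _ (X 0), algebraMap (P3 k) _ f / algebraMap (P3 k) _ (X 0) ^ p,
    algebraMap (P3 k) _ (X 1), algebraMap (P3 k) _ (X 2)]

theorem am_ne (i : Fin 3) : algebraMap (P3 k) (KK k) (X i) ≠ 0 := by
  simpa using X_ne_zero (R := k) i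

theorem rho_rename (f G : P3 k) : rho p f (rename io G) = algebraMap (P3 k) _ G := by
  induction G using MvPolynomial.induction_on with
  | C a => simp [rho, IsScalarTower.algebraMap_apply k (P3 k) (KK k)]
  | add a b ha hb => simp [ha, hb]
  | mul_X a i ha =>
    rw [map_mul, map_mul, map_mul, ha, rename_X]
    fin_cases i <;> simp [io, rho]

theorem ker_rho (hp : p ≠ 0) (f : P3 k) (hf : eval ![0, 1, 0] f ≠ 0) (G : P4 k) :
    rho p f G = 0 ↔ X 0 ^ p * X 1 - rename io f ∣ G := by
  refine ker_elim (y := 1) io (fun i => ?_) 0 f (fun ⟨Q, hQ⟩ => hf ?_) hp _ ?_ (fun G h => ?_) G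
  · fin_cases i
    exacts [Or.inr ⟨0, rfl⟩, Or.inl rfl, Or.inr ⟨1, rfl⟩, Or.inr ⟨2, rfl⟩]
  · have := congrArg (eval ![0, 0, 1, 0]) hQ
    rw [eval_rename, map_mul, eval_X] at this
    convert this using 2
    · congr 1; ext i; fin_cases i <;> rfl
    · simp [io]
  · rw [map_sub, rho_rename]
    have := am_ne (k := k) 0
    simp [rho, io]
    field_simp
    ring
  · rw [rho_rename] at h
    simpa using h

theorem ker_rho0 (hp : p ≠ 0) (G : P4 k) : rho p (f0 k p) G = 0 ↔ F0 k p ∣ G := by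
  rw [F0_eq]; exact ker_rho p hp _ (by simp [f0, hp]) G

theorem ker_rho1 (hp : p ≠ 0) (G : P4 k) : rho p (f0 k p + X 2) G = 0 ↔ F1 k p ∣ G := by
  rw [F1_eq]; exact ker_rho p hp _ (by simp [f0, hp]) G

theorem const_of_dvd {K : Type*} [Field K] {q r : Polynomial K} {c : K} (hc : c ≠ 0)
    (h : q * r = Polynomial.C c) : q = Polynomial.C (q.coeff 0) := by
  apply Polynomial.eq_C_of_natDegree_eq_zero
  have := Polynomial.natDegree_le_of_dvd ⟨r, h.symm⟩ (Polynomial.C_ne_zero.2 hc)
  simpa using this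

theorem final [hp : Fact p.Prime] [CharP k p] (g : Option (Fin 4) → P5 k)
    (hU : ∀ j, X none ∣ g (some j) - X (some j))
    (ha : rename some (F0 k p) ∣ aeval g (rename some (F0 k p)))
    (hb : rename some (F0 k p) ∣ aeval g (g (some 0)) - X (some 0))
    (f : P4 k) (hf : ¬ F0 k p ∣ X 1 * f)
    (hc : rename some (F0 k p) ∣ aeval g (rename some (X 1 * f)) - rename some (X 1 * f)) (j) :
    rename some (F0 k p) ∣ g (some j) - X (some j) := by
  have hp0 := hp.out.ne_zero
  set ρ := rho p (f0 k p) with hρ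
  have hk := ker_lift ρ (ker_rho0 p hp0)
  haveI : CharP (KK k) p := charP_of_injective_algebraMap (algebraMap k (KK k)).injective p
  set F := rename some (F0 k p) with hF
  have hF' : F = X (some 0) ^ p * X (some 1) + (X (some 2) ^ p - X (some 3) ^ (p + 1)) ^ p := by
    simp [hF, F0]
  have hF0 : lift ρ F = 0 := (hk F).2 dvd_rfl
  have h0 : ∀ j, (lift ρ (g (some j))).coeff 0 = ρ (X j) := by
    intro j
    obtain ⟨Q, hQ⟩ := hU j
    rw [sub_eq_iff_eq_add.1 hQ]
    simp
  have hx : ρ (X 0) ≠ 0 := by simpa [hρ, rho] using am_ne (k := k) 0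
  have ht : ρ (X 3) ≠ 0 := by simpa [hρ, rho] using am_ne (k := k) 2
  have e1 : lift ρ (g (some 1)) = Polynomial.C (ρ (X 1)) := by
    have := (hk _).2 hc
    rw [map_sub, lift_rename, sub_eq_zero, map_mul, map_mul, map_mul, rename_X, aeval_X] at this
    rw [const_of_dvd (fun h => hf ((ker_rho0 p hp0 _).1 h)) this, h0]
  have ha' : aeval g F = g (some 0) ^ p * g (some 1)
      + (g (some 2) ^ p - g (some 3) ^ (p + 1)) ^ p := by simp [hF']
  have e0 : lift ρ (g (some 0)) = Polynomial.C (ρ (X 0)) := by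
    have h1 : F ∣ g (some 0) ^ p * X (some 1) + (g (some 2) ^ p - g (some 3) ^ (p + 1)) ^ p := by
      rw [← hk, map_add, map_mul, lift_some, ← e1, ← map_mul, ← map_add, ← ha', hk]
      exact ha
    obtain ⟨Q, hQ⟩ := h1
    have h2 := congrArg (pderiv (some 1)) hQ
    have h3 : pderiv (some 1) F = X (some 0) ^ p := by
      simp [hF', Derivation.leibniz_pow, nsmul_eq_mul]
    simp only [map_add, Derivation.leibniz, Derivation.leibniz_pow, pderiv_X_self, h3,
      nsmul_eq_mul, CharP.cast_eq_zero, smul_eq_mul, zero_mul, mul_zero, add_zero, mul_one] at h2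
    have h4 := congrArg (fun G => lift ρ (aeval g G)) h2
    have h5 := (hk _).2 hb
    rw [map_sub, sub_eq_zero, lift_some] at h5
    simp only [map_add, map_mul, map_pow, aeval_X, h5, (hk _).2 ha, zero_mul, zero_add] at h4
    rw [const_of_dvd (q := lift ρ (g (some 0))) (pow_ne_zero p hx)
      (r := lift ρ (g (some 0)) ^ (p - 1) * lift ρ (aeval g Q)) (by
        rw [← mul_assoc, mul_pow_sub_one hp0, map_pow, h4, mul_comm]), h0]
  have e2 : F ∣ g (some 2) ^ p - g (some 3) ^ (p + 1) - (X (some 2) ^ p - X (some 3) ^ (p + 1)) := by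
    rw [← hk]
    apply pow_eq_zero_iff hp0 |>.1
    have h1 := (hk _).2 ha
    rw [ha'] at h1
    rw [hF'] at hF0
    rw [map_sub, sub_pow_char, ← map_pow, ← map_pow]
    rw [map_add, map_mul, map_pow] at h1 hF0
    rw [e0, e1] at h1
    rw [lift_some, lift_some] at hF0
    linear_combination h1 - hF0
  have e3 : lift ρ (g (some 3)) = Polynomial.C (ρ (X 3)) := by
    obtain ⟨Q, hQ⟩ := e2
    have h2 := congrArg (pderiv (some 3)) hQ
    have h3 : pderiv (some 3) F = 0 := by
      simp [hF', Derivation.leibniz_pow, nsmul_eq_mul]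
    simp only [map_sub, Derivation.leibniz, Derivation.leibniz_pow, pderiv_X_self, h3,
      nsmul_eq_mul, CharP.cast_eq_zero, smul_eq_mul, zero_mul, mul_zero, add_zero, mul_one,
      Nat.cast_add, Nat.cast_one, zero_add, one_mul, Nat.add_sub_cancel, zero_sub] at h2
    have h4 := congrArg (lift ρ) h2
    simp only [map_sub, map_neg, map_mul, map_pow, hF0, zero_mul, lift_some] at h4
    rw [const_of_dvd (q := lift ρ (g (some 3))) (pow_ne_zero p ht)
      (r := lift ρ (g (some 3)) ^ (p - 1) * lift ρ (pderiv (some 3) (g (some 3)))) (by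
        rw [← mul_assoc, mul_pow_sub_one hp0, map_pow]
        linear_combination -h4), h0]
  have e4 : lift ρ (g (some 2)) = Polynomial.C (ρ (X 2)) := by
    have h1 := (hk _).2 e2
    rw [← sub_eq_zero]
    apply pow_eq_zero_iff hp0 |>.1
    simp only [map_sub, map_pow, e3, lift_some] at h1
    rw [sub_pow_char]
    linear_combination h1
  rw [← hk, map_sub, lift_some, sub_eq_zero]
  fin_cases j
  exacts [e0, e1, e4, e3]

end Pool.Agent.H.MP_bc0af3_ag
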