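import Pool.Agent.H.MP_bc0af3_ag.Top

namespace Pool.Agent.H.MP_bc0af3_ag
open MvPolynomial
open Finsupp (weight)

variable {σ τ k : Type*} [CommRing k]

def NF (x y : σ) (p : ℕ) (G : MvPolynomial σ k) : Prop :=
  ∀ m, coeff m G ≠ 0 → m x < p ∨ m y = 0

open Classical in
noncomputable def wy (y : σ) : σ → ℚ := Pi.single y 1

theorem weight_wy (y : σ) (m : σ →₀ ℕ) : weight (wy y) m = m y := by
  classical
  unfold wy
  convert Finsupp.weight_single_index y (1 : ℚ) m
  simp

theorem wy_self (y : σ) : wy y y = 1 := by simp [wy]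

theorem wy_ne {x y : σ} (h : x ≠ y) : wy y x = 0 := by simp [wy, h]

variable {x y : σ} {p : ℕ} {f G H : MvPolynomial σ k}

theorem NF.add (a : NF x y p G) (b : NF x y p H) : NF x y p (G + H) := fun m h => by
  rw [coeff_add] at h
  by_cases h1 : coeff m G = 0
  · exact b m (by simpa [h1] using h)
  · exact a m h1

theorem top_rel (hxy : x ≠ y) (hf : Le (wy y) 0 f) :
    Top (wy y) 1 (X x ^ p * X y - f) (X x ^ p * X y) := by
  have h1 := ((Top.self (isWeightedHomogeneous_X k (wy y) x)).pow p).mul
    (Top.self (isWeightedHomogeneous_X k (wy y) y))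
  rw [wy_self, wy_ne hxy] at h1
  have h2 := h1.sub (by simpa using Top.of_low (hf.low zero_lt_one))
  simpa using h2

theorem xy_mon : (X x ^ p * X y : MvPolynomial σ k)
    = monomial (Finsupp.single x p + Finsupp.single y 1) 1 := by
  rw [X_pow_eq_monomial, X, monomial_mul, one_mul]

theorem NF.eq_zero [IsDomain k] (hxy : x ≠ y) (hf : Le (wy y) 0 f) (a : NF x y p G)
    (hd : X x ^ p * X y - f ∣ G) : G = 0 := by
  classical
  by_contra h
  obtain ⟨γ, G0, h0, ht⟩ := ex_top (wy y) h
  obtain ⟨Q, hQ⟩ := (top_rel hxy hf).dvd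
    (mul_ne_zero (pow_ne_zero _ (X_ne_zero _)) (X_ne_zero _)) ht hd
  obtain ⟨m, hm⟩ := ne_zero_iff.1 h0
  have h1 := a m (ht.supp hm)
  rw [hQ, xy_mon, coeff_monomial_mul'] at hm
  split_ifs at hm with h2
  · have h3 := h2 x
    have h4 := h2 y
    simp [hxy, hxy.symm] at h3 h4
    omega
  · exact hm rfl

theorem nf_lift (hxy : x ≠ y) (hf : Le (wy y) 0 f) (G : MvPolynomial σ k) :
    ∃ G', NF x y p G' ∧ X x ^ p * X y - f ∣ G - G' := by
  classical
  have key : ∀ n : ℕ, ∀ G : MvPolynomial σ k, Le (wy y) n G →
      ∃ G', NF x y p G' ∧ X x ^ p * X y - f ∣ G - G' := by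
    intro n
    induction n with
    | zero =>
      intro G hG
      refine ⟨G, fun m hm => Or.inr ?_, by simp⟩
      have := hG m hm
      rw [weight_wy] at this
      exact_mod_cast le_antisymm this (by positivity)
    | succ n ih =>
      intro G hG
      have h1 : ∀ m ∈ G.support, ∃ G', NF x y p G' ∧
          X x ^ p * X y - f ∣ monomial m (coeff m G) - G' := by
        intro m hm
        by_cases h2 : m x < p ∨ m y = 0
        · refine ⟨monomial m (coeff m G), fun a ha => ?_, by simp⟩
          rw [coeff_monomial] at ha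
          split_ifs at ha with h3
          · exact h3 ▸ h2
          · exact absurd rfl ha
        · push Not at h2
          have h3 : Finsupp.single x p + Finsupp.single y 1 ≤ m := by
            intro i
            by_cases e1 : i = x
            · subst e1; simp [hxy, h2.1]
            · by_cases e2 : i = y
              · subst e2; simp [hxy.symm]; omega
              · simp [e1, e2]
          obtain ⟨m', rfl⟩ := le_iff_exists_add.1 h3
          set c := coeff (Finsupp.single x p + Finsupp.single y 1 + m') G
          have h4 : Le (wy y) n (monomial m' c) := by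
            intro a ha
            rw [coeff_monomial] at ha
            split_ifs at ha with h3
            · subst h3
              have := hG _ (mem_support_iff.1 hm)
              rw [weight_wy] at this ⊢
              simp [hxy.symm] at this
              linarith
            · exact absurd rfl ha
          obtain ⟨G', h5, h6⟩ := ih (f * monomial m' c) (by simpa using hf.mul h4)
          refine ⟨G', h5, ?_⟩
          have : monomial (Finsupp.single x p + Finsupp.single y 1 + m') c - G'
              = (X x ^ p * X y - f) * monomial m' c + (f * monomial m' c - G') := by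
            rw [sub_mul, xy_mon, monomial_mul, one_mul]; ring
          rw [this]
          exact dvd_add (dvd_mul_right _ _) h6
      choose! g h2 h3 using h1
      refine ⟨∑ m ∈ G.support, g m, ?_, ?_⟩
      · exact Finset.sum_induction _ _ (fun _ _ => NF.add) (fun m h => by simp at h) h2
      · conv => enter [2, 1]; rw [G.as_sum]
        rw [← Finset.sum_sub_distrib]
        exact Finset.dvd_sum h3
  refine key (degreeOf y G) G fun m hm => ?_
  rw [weight_wy]
  exact_mod_cast monomial_le_degreeOf y (mem_support_iff.2 hm)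

theorem ker_elim [IsDomain k] {R : Type*} [CommRing R] [Algebra k R] (ι : τ → σ)
    (hι : ∀ i, i = y ∨ ∃ j, ι j = i) (x' : τ) (f' : MvPolynomial τ k)
    (hX : ¬ X (ι x') ∣ rename ι f') (hp : p ≠ 0) (ρ : MvPolynomial σ k →ₐ[k] R)
    (h0 : ρ (X (ι x') ^ p * X y - rename ι f') = 0) (hi : ∀ G, ρ (rename ι G) = 0 → G = 0)
    (G : MvPolynomial σ k) : ρ G = 0 ↔ X (ι x') ^ p * X y - rename ι f' ∣ G := by
  set F := X (ι x') ^ p * X y - rename ι f' with hF
  refine ⟨fun hG => ?_, fun ⟨Q, hQ⟩ => by rw [hQ, map_mul, h0, zero_mul]⟩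
  have key : ∀ G : MvPolynomial σ k, ∃ M G1, F ∣ X (ι x') ^ M * G - rename ι G1 := by
    intro G
    induction G using MvPolynomial.induction_on with
    | C a => exact ⟨0, C a, by simp⟩
    | add a b ha hb =>
      obtain ⟨M, G1, h1⟩ := ha
      obtain ⟨N, G2, h2⟩ := hb
      refine ⟨M + N, X x' ^ N * G1 + X x' ^ M * G2, ?_⟩
      have := dvd_add (h1.mul_left (X (ι x') ^ N)) (h2.mul_left (X (ι x') ^ M))
      convert this using 1
      simp only [map_add, map_mul, map_pow, rename_X]; ring
    | mul_X a i ha =>
      obtain ⟨M, G1, h1⟩ := ha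
      rcases hι i with rfl | ⟨j, rfl⟩
      · refine ⟨M + p, G1 * f', ?_⟩
        have := dvd_add (h1.mul_left (X (ι x') ^ p * X i)) (dvd_mul_right F (rename ι G1))
        convert this using 1
        simp only [map_mul, hF]; ring
      · refine ⟨M, G1 * X j, ?_⟩
        have := h1.mul_left (X (ι j))
        convert this using 1
        simp only [map_mul, rename_X]; ring
  obtain ⟨M, G1, Q, hQ⟩ := key G
  have h1 := congrArg ρ hQ
  rw [map_sub, map_mul, hG, map_mul, h0, mul_zero, zero_mul, zero_sub, neg_eq_zero] at h1
  rw [hi _ h1, map_zero, sub_zero] at hQ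
  have hX' : ¬ X (ι x') ∣ F := fun h => hX (by
    have := dvd_sub (Dvd.dvd.mul_right (dvd_pow_self (X (ι x') : MvPolynomial σ k) hp) (X y)) h
    simpa [hF] using this)
  have h2 : X (ι x') ^ M ∣ Q :=
    (X_prime (R := k) (i := ι x')).pow_dvd_of_dvd_mul_left M hX' ⟨G, hQ.symm⟩
  obtain ⟨Q', rfl⟩ := h2
  exact ⟨Q', mul_left_cancel₀ (pow_ne_zero M (X_ne_zero (ι x'))) (by rw [hQ]; ring)⟩

noncomputable def lift {R : Type*} [CommRing R] [Algebra k R] (π : MvPolynomial σ k →ₐ[k] R) :
    MvPolynomial (Option σ) k →ₐ[k] Polynomial R :=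
  aeval fun o => o.elim Polynomial.X fun i => Polynomial.C (π (X i))

section
variable {R : Type*} [CommRing R] [Algebra k R] (π : MvPolynomial σ k →ₐ[k] R)

@[simp] theorem lift_none : lift π (X none) = Polynomial.X := by simp [lift]

@[simp] theorem lift_some (i : σ) : lift π (X (some i)) = Polynomial.C (π (X i)) := by simp [lift]

theorem lift_rename (G : MvPolynomial σ k) : lift π (rename some G) = Polynomial.C (π G) := by
  induction G using MvPolynomial.induction_on with
  | C a => simp [lift, Polynomial.algebraMap_apply]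
  | add a b ha hb => simp [ha, hb]
  | mul_X a i ha => simp [ha]

theorem lift_eq (G : MvPolynomial (Option σ) k) :
    lift π G = (optionEquivLeft k σ G).map (π : MvPolynomial σ k →+* R) := by
  induction G using MvPolynomial.induction_on with
  | C a => simp [lift, Polynomial.algebraMap_apply]
  | add a b ha hb => simp [ha, hb]
  | mul_X a i ha => cases i <;> simp [ha]

theorem ker_lift {F : MvPolynomial σ k} (h : ∀ G, π G = 0 ↔ F ∣ G)
    (G : MvPolynomial (Option σ) k) : lift π G = 0 ↔ rename some F ∣ G := by
  have e : optionEquivLeft k σ (rename some F) = Polynomial.C F := by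
    have := lift_eq (AlgHom.id k _) (rename some F)
    rw [lift_rename] at this
    simpa using this.symm
  rw [← map_dvd_iff (optionEquivLeft k σ), e, Polynomial.C_dvd_iff_dvd_coeff, lift_eq,
    Polynomial.ext_iff]
  simp [h]

theorem lift_surj (h : Function.Surjective π) : Function.Surjective (lift π) := fun q => by
  obtain ⟨q, rfl⟩ := Polynomial.map_surjective (π : MvPolynomial σ k →+* R) h q
  exact ⟨(optionEquivLeft k σ).symm q, by rw [lift_eq]; simp⟩

end

end Pool.Agent.H.MP_bc0af3_ag
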