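import Pool.Agent.H.MP_bc0af3_ag.Fin

namespace Pool.Agent.H.MP_bc0af3_ag
open MvPolynomial
open Finsupp (weight)

variable {k : Type*} [Field k] (p : ℕ)

theorem le_io (G : P3 k) : Le (wy 1) 0 (rename io G) := fun m hm => by
  obtain ⟨u, rfl, -⟩ := coeff_rename_ne_zero _ _ _ hm
  rw [weight_wy, Finsupp.mapDomain_of_notMem_range]
  · simp
  · rintro ⟨i, hi⟩
    fin_cases i <;> simp [io] at hi

theorem top_rename {v : Option (Fin 4) → ℚ} {γ : ℚ} {G G0 : P4 k}
    (h : Top (fun i => v (some i)) γ G G0) : Top v γ (rename some G) (rename some G0) := by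
  rw [rename_eq_aeval]
  exact Top.aev (fun i => Top.self (isWeightedHomogeneous_X k v (some i))) h

theorem X_dvd_of {σ : Type*} {G : MvPolynomial σ k} {i : σ} (h : ∀ m, coeff m G ≠ 0 → m i ≠ 0) :
    X i ∣ G := by
  rw [← Ideal.mem_span_singleton, ← Set.image_singleton, mem_ideal_span_X_image]
  exact fun m hm => ⟨i, rfl, h m (mem_support_iff.1 hm)⟩

def w4 (N : ℚ) : Fin 4 → ℚ := ![-N, (p + 1) * p * p + p * N, p + 1, p]

theorem top_F1 (hp : 1 < p) (N : ℚ) :
    Top (w4 p N) ((p + 1) * p * p) (F1 k p) (F0 k p) := by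
  have hX := fun i => Top.self (isWeightedHomogeneous_X k (w4 p N) i)
  have h1 := ((hX 0).pow p).mul (hX 1)
  have h2 := (hX 2).pow p
  have h3 := (hX 3).pow (p + 1)
  have e1 : (p : ℚ) * w4 p N 0 + w4 p N 1 = (p + 1) * p * p := by simp [w4]
  have e2 : (p : ℚ) * w4 p N 2 = (p + 1) * p := by simp [w4]; ring
  have e3 : ((p + 1 : ℕ) : ℚ) * w4 p N 3 = (p + 1) * p := by simp [w4]
  rw [e1] at h1; rw [e2] at h2; rw [e3] at h3
  have h4 := (h2.sub h3).pow p
  rw [mul_comm (p : ℚ)] at h4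
  have h5 : w4 p N 3 < (p + 1) * p * p := by
    have : (1 : ℚ) < p := by exact_mod_cast hp
    simp only [w4, Matrix.cons_val]
    nlinarith [mul_pos (show (0 : ℚ) < p by linarith) (show (0 : ℚ) < p * p by positivity)]
  simpa [F1, F0] using (h1.add h4).sub (Top.of_low ((hX 3).le.low h5))

theorem ex_weight (hp : 0 < p) {f : P4 k} (hf : NF 0 1 p f) {m : Fin 4 →₀ ℕ} (hm : coeff m f ≠ 0)
    (hm1 : m 1 ≠ 0) : ∃ N γ f', X 1 * f' ≠ 0 ∧ Top (w4 p N) γ f (X 1 * f') := by
  obtain ⟨M, hM⟩ := (f.support.image fun a : Fin 4 →₀ ℕ => (a 2 * (p + 1) + a 3 * p : ℚ)).bddAbove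
  have hM' : ∀ a, coeff a f ≠ 0 → (a 2 * (p + 1) + a 3 * p : ℚ) ≤ M := fun a ha =>
    hM (by simpa using ⟨a, ha, rfl⟩)
  have hM0 : 0 ≤ M := le_trans (by positivity) (hM' m hm)
  obtain ⟨γ, f0, h0, ht⟩ := ex_top (w4 p (M + 1)) (G := f) (by rintro rfl; simp at hm)
  have hw : ∀ a : Fin 4 →₀ ℕ, weight (w4 p (M + 1)) a = (p * a 1 - a 0) * (M + 1)
      + a 1 * ((p + 1) * p * p) + (a 2 * (p + 1) + a 3 * p) := by
    intro a
    rw [Finsupp.weight_eq_sum, Fin.sum_univ_four]
    simp [w4]; ring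
  have h1 : M + 1 ≤ γ := by
    refine le_trans ?_ (ht.le m hm)
    rw [hw]
    have h2 : m 0 + 1 ≤ p * m 1 := by
      have := (hf m hm).resolve_right hm1
      nlinarith [Nat.pos_of_ne_zero hm1]
    have h3 : (m 0 : ℚ) + 1 ≤ p * m 1 := by exact_mod_cast h2
    have h4 : (0 : ℚ) ≤ m 1 * ((p + 1) * p * p) + (m 2 * (p + 1) + m 3 * p) := by positivity
    nlinarith
  obtain ⟨f', rfl⟩ : X 1 ∣ f0 := X_dvd_of fun a ha h2 => by
    have h3 := ht.1 ha
    have h4 := hM' a (ht.supp ha)
    rw [hw, h2] at h3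
    have h5 : (0 : ℚ) ≤ a 0 * (M + 1) := by positivity
    push_cast at h3
    nlinarith
  exact ⟨_, γ, f', h0, ht⟩

theorem ex_eta (w : Fin 4 → ℚ) (r : Fin 4 → P5 k) (hr : ∃ l, r l ≠ 0) :
    ∃ η : ℚ, (∀ l, Le (fun o => Option.elim o η w) (w l) (X none * r l)) ∧
      ∃ l m, coeff m (X none * r l) ≠ 0 ∧ weight (fun o => Option.elim o η w) m = w l := by
  classical
  have hw : ∀ (η : ℚ) (m : Option (Fin 4) →₀ ℕ), weight (fun o => Option.elim o η w) m
      = m none * η + ∑ l, m (some l) * w l := by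
    intro η m
    rw [Finsupp.weight_eq_sum, Fintype.sum_option]
    simp
  have hn : ∀ l m, coeff m (X none * r l) ≠ 0 → (0 : ℚ) < m none := by
    intro l m hm
    rw [coeff_X_mul'] at hm
    split_ifs at hm with h
    · exact_mod_cast Nat.pos_of_ne_zero (Finsupp.mem_support_iff.1 h)
    · exact absurd rfl hm
  obtain ⟨l0, h0⟩ := hr
  obtain ⟨m0, hm0⟩ := ne_zero_iff.1 (mul_ne_zero (X_ne_zero none) h0)
  obtain ⟨⟨l, m⟩, h1, h2⟩ := (Finset.univ.sigma fun l => (X none * r l).support).exists_min_image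
    (fun a : Σ _ : Fin 4, (Option (Fin 4) →₀ ℕ) =>
      (w a.1 - ∑ l, a.2 (some l) * w l) / a.2 none)
    ⟨⟨l0, m0⟩, Finset.mem_sigma.2 ⟨Finset.mem_univ _, mem_support_iff.2 hm0⟩⟩
  have h1' : coeff m (X none * r l) ≠ 0 := mem_support_iff.1 (Finset.mem_sigma.1 h1).2
  refine ⟨(w l - ∑ l, m (some l) * w l) / m none, fun l' m' hm' => ?_, l, m, h1', ?_⟩
  · have := h2 ⟨l', m'⟩ (Finset.mem_sigma.2 ⟨Finset.mem_univ _, mem_support_iff.2 hm'⟩)
    rw [hw]
    rw [le_div_iff₀ (hn _ _ hm')] at this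
    linarith
  · rw [hw]
    have := hn _ _ h1'
    field_simp
    ring

theorem not_poly [hp : Fact p.Prime] [CharP k p] (π : P4 k →ₐ[k] P3 k) (hs : Function.Surjective π)
    (hk : ∀ G, π G = 0 ↔ F1 k p ∣ G) : False := by
  classical
  have hp0 := hp.out.ne_zero
  have h01 : (0 : Fin 4) ≠ 1 := by decide
  have h1 : ∀ i, ∃ f, NF 0 1 p f ∧ π f = X i := by
    intro i
    obtain ⟨G, hG⟩ := hs (X i)
    obtain ⟨G', h2, h3⟩ := nf_lift (p := p) h01 (le_io (f0 k p + X 2)) G
    rw [← F1_eq, ← hk, map_sub, sub_eq_zero] at h3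
    exact ⟨G', h2, h3 ▸ hG⟩
  choose f hf hπ using h1
  obtain ⟨i, m, hm, hm1⟩ : ∃ i m, coeff m (f i) ≠ 0 ∧ m 1 ≠ 0 := by
    by_contra hc
    push Not at hc
    have h2 : ∀ Q : P3 k, Le (wy 1) 0 (aeval f Q) ∧ π (aeval f Q) = Q := by
      intro Q
      induction Q using MvPolynomial.induction_on with
      | C a => exact ⟨by simpa using Le.of_hom (isWeightedHomogeneous_C (wy 1) a), by simp⟩
      | add a b ha hb => exact ⟨by simpa using ha.1.add hb.1, by rw [map_add, map_add, ha.2, hb.2]⟩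
      | mul_X a i ha =>
        refine ⟨?_, by rw [map_mul, map_mul, ha.2, aeval_X, hπ]⟩
        simpa using ha.1.mul (δ := 0) (H := f i) fun m hm => by rw [weight_wy, hc i m hm]; simp
    obtain ⟨h3, h4⟩ := h2 (π (X 1))
    have h5 : F1 k p ∣ X 1 - aeval f (π (X 1)) := by rw [← hk, map_sub, h4, sub_self]
    have h6 := (Top.self (isWeightedHomogeneous_X k (wy (1 : Fin 4)) 1)).sub
      (Top.of_low (h3.low (by rw [wy_self]; exact zero_lt_one)))
    rw [F1_eq] at h5
    obtain ⟨Q, hQ⟩ := (top_rel h01 (le_io _)).dvd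
      (mul_ne_zero (pow_ne_zero _ (X_ne_zero _)) (X_ne_zero _)) h6 h5
    simpa [hp0] using congrArg (eval ![0, 1, 0, 0]) hQ
  obtain ⟨N, γ, f', hf0, hft⟩ := ex_weight p hp.out.pos (hf i) hm hm1
  obtain ⟨j, hj⟩ := exists_ne i
  let φ : P3 k →ₐ[k] Polynomial (P3 k) :=
    aeval fun l => Polynomial.C (X l) + if l = j then Polynomial.X else 0
  let Θ := Polynomial.aevalTower φ (-Polynomial.X)
  have hΘ : ∀ q, Θ (Θ q) = q := by
    have : Θ.comp Θ = AlgHom.id _ _ := by
      apply Polynomial.algHom_ext'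
      · ext1 l
        by_cases h : l = j <;> simp [Θ, φ, h]
      · simp [Θ]
    exact fun q => DFunLike.congr_fun this q
  have hφ : ∀ a, Polynomial.X ∣ φ a - Polynomial.C a := by
    intro a
    rw [Polynomial.X_dvd_iff, Polynomial.coeff_sub, Polynomial.coeff_C_zero, sub_eq_zero]
    induction a using MvPolynomial.induction_on with
    | C a => simp [Polynomial.algebraMap_apply]
    | add a b ha hb => simp [ha, hb]
    | mul_X a l ha => by_cases h : l = j <;> simp [ha, φ, h]
  have hkl := ker_lift π hk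
  have e1 : rename some (F1 k p) = X (some 0) ^ p * X (some 1)
      - rename some (rename io (f0 k p + X 2)) := by rw [F1_eq]; simp
  have e0 : rename some (F0 k p) = X (some 0) ^ p * X (some 1)
      - rename some (rename io (f0 k p)) := by rw [F0_eq]; simp
  have hle : ∀ G : P3 k, Le (wy (some 1)) 0 (rename some (rename io G) : P5 k) := fun G m hm => by
    rw [rename_rename] at hm
    obtain ⟨u, rfl, -⟩ := coeff_rename_ne_zero _ _ _ hm
    rw [weight_wy, Finsupp.mapDomain_of_notMem_range]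
    · simp
    · rintro ⟨i, hi⟩
      fin_cases i <;> simp [io] at hi
  have h01' : (some 0 : Option (Fin 4)) ≠ some 1 := by decide
  have h2 : ∀ l, ∃ r : P5 k, NF (some 0) (some 1) p r ∧
      lift π (X (some l) + X none * r) = φ (π (X l)) := by
    intro l
    obtain ⟨q, hq⟩ := hφ (π (X l))
    obtain ⟨G, rfl⟩ := lift_surj π hs q
    obtain ⟨G', h2, h3⟩ := nf_lift (p := p) h01' (hle (f0 k p + X 2)) G
    rw [← e1, ← hkl, map_sub, sub_eq_zero] at h3
    refine ⟨G', h2, ?_⟩
    rw [map_add, map_mul, lift_none, lift_some, ← h3, ← hq]; ring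
  choose r hr hr' using h2
  have h3 : ∃ l, r l ≠ 0 := by
    by_contra hc
    push Not at hc
    have : ∀ G, φ (π G) = Polynomial.C (π G) := by
      intro G
      induction G using MvPolynomial.induction_on with
      | C a => simp [Polynomial.algebraMap_apply]
      | add a b ha hb => simp [ha, hb]
      | mul_X a l ha => simp [ha, ← hr', hc]
    obtain ⟨G, hG⟩ := hs (X j)
    have := this G
    simp [hG, φ] at this
  obtain ⟨η, h4, l, a, ha, ha'⟩ := ex_eta (w4 p N) r h3
  set w : Option (Fin 4) → ℚ := fun o => Option.elim o η (w4 p N) with hw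
  choose r0 hr0 using fun l => (h4 l).top
  let g : Option (Fin 4) → P5 k := fun o => o.elim (-X none) fun l => X (some l) + X none * r l
  let g0 : Option (Fin 4) → P5 k := fun o => o.elim (-X none) fun l => X (some l) + r0 l
  have hX := fun o => Top.self (isWeightedHomogeneous_X k w o)
  have hg : ∀ o, Top w (w o) (g o) (g0 o) := by
    rintro (_ | l)
    · exact (hX none).neg
    · exact (hX (some l)).add (hr0 l)
  have hc : ∀ G, lift π (aeval g G) = Θ (lift π G) := by
    have : (lift π).comp (aeval g) = Θ.comp (lift π) := by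
      ext1 o
      rcases o with _ | l
      · simp [g, Θ]
      · simp only [AlgHom.comp_apply, aeval_X, g, Option.elim, hr', lift_some, Θ,
          Polynomial.aevalTower_C]
    exact fun G => DFunLike.congr_fun this G
  have hF : Top w _ (rename some (F1 k p)) (rename some (F0 k p)) :=
    top_rename (top_F1 p hp.out.one_lt N)
  have hF0 : (rename some (F0 k p) : P5 k) ≠ 0 := by
    intro h
    have := congrArg (eval fun o => Option.elim o 0 ![0, 0, 1, 0]) h
    simp [F0, hp0] at this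
  have hft' : Top w γ (rename some (f i)) (rename some (X 1 * f')) := top_rename hft
  have h5 := final p g0 (fun l => ?_) (hF.dvd hF0 (Top.aev hg hF) ?_)
    (hF.dvd hF0 ((Top.aev hg (hg (some 0))).sub (hX (some 0))) ?_) f' (fun h => hf0 ?_)
    (hF.dvd hF0 ((Top.aev hg hft').sub hft') ?_) l
  · have h6 : NF (some 0) (some 1) p (r0 l) := fun b hb => by
      have := (hr0 l).supp hb
      rw [coeff_X_mul'] at this
      split_ifs at this with h
      · simpa using hr l _ this
      · exact absurd rfl this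
    have h7 : r0 l = 0 := h6.eq_zero h01' (hle _) (by rw [← e0]; simpa [g0] using h5)
    rw [← (hr0 l).coeff_eq ha', h7] at ha
    simp at ha
  · simp only [g0, Option.elim, add_sub_cancel_left]
    refine X_dvd_of fun b hb => ?_
    have := (hr0 l).supp hb
    rw [coeff_X_mul'] at this
    split_ifs at this with h
    · exact Finsupp.mem_support_iff.1 h
    · exact absurd rfl this
  · rw [← hkl, hc, (hkl _).2 dvd_rfl, map_zero]
  · have := hc (X (some 0))
    rw [aeval_X] at this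
    rw [← hkl, map_sub, hc, this, hΘ, sub_self]
  · rw [F0_eq] at h
    exact NF.eq_zero h01 (le_io _) (fun b hb => hf i b (hft.supp hb)) h
  · rw [← hkl, map_sub, hc, lift_rename, hπ]
    simp [Θ, φ, hj.symm]

end Pool.Agent.H.MP_bc0af3_ag
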