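import Mathlib

namespace Pool.Agent.H.MP_bc0af3_ag
open MvPolynomial
open Finsupp (weight)

variable {σ τ k : Type*} [CommRing k]

def Low (w : σ → ℚ) (γ : ℚ) (G : MvPolynomial σ k) : Prop :=
  ∀ m, coeff m G ≠ 0 → weight w m < γ

def Le (w : σ → ℚ) (γ : ℚ) (G : MvPolynomial σ k) : Prop :=
  ∀ m, coeff m G ≠ 0 → weight w m ≤ γ

def Top (w : σ → ℚ) (γ : ℚ) (G G0 : MvPolynomial σ k) : Prop :=
  G0.IsWeightedHomogeneous w γ ∧ Low w γ (G - G0)

variable {w : σ → ℚ} {γ δ : ℚ} {G G0 H H0 : MvPolynomial σ k}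

theorem Low.zero : Low w γ (0 : MvPolynomial σ k) := fun m h => by simp at h

theorem Le.zero : Le w γ (0 : MvPolynomial σ k) := fun m h => by simp at h

theorem Low.add (a : Low w γ G) (b : Low w γ H) : Low w γ (G + H) := fun m h => by
  rw [coeff_add] at h
  by_cases h1 : coeff m G = 0
  · exact b m (by simpa [h1] using h)
  · exact a m h1

theorem Le.add (a : Le w γ G) (b : Le w γ H) : Le w γ (G + H) := fun m h => by
  rw [coeff_add] at h
  by_cases h1 : coeff m G = 0
  · exact b m (by simpa [h1] using h)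
  · exact a m h1

theorem Low.neg (a : Low w γ G) : Low w γ (-G) := fun m h => a m (by simpa using h)

theorem Le.neg (a : Le w γ G) : Le w γ (-G) := fun m h => a m (by simpa using h)

theorem Low.le (a : Low w γ G) : Le w γ G := fun m h => (a m h).le

theorem Le.low (a : Le w γ G) (h : γ < δ) : Low w δ G := fun m hm => (a m hm).trans_lt h

theorem Le.mono (a : Le w γ G) (h : γ ≤ δ) : Le w δ G := fun m hm => (a m hm).trans h

theorem Le.of_hom (a : G.IsWeightedHomogeneous w γ) : Le w γ G := fun _ h => (a h).le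

theorem ex_of_mul {m : σ →₀ ℕ} (h : coeff m (G * H) ≠ 0) :
    ∃ a b, coeff a G ≠ 0 ∧ coeff b H ≠ 0 ∧ a + b = m := by
  classical
  rw [coeff_mul] at h
  obtain ⟨x, hx, h2⟩ := Finset.exists_ne_zero_of_sum_ne_zero h
  exact ⟨x.1, x.2, left_ne_zero_of_mul h2, right_ne_zero_of_mul h2, by simpa using hx⟩

theorem Le.mul (a : Le w γ G) (b : Le w δ H) : Le w (γ + δ) (G * H) := fun m h => by
  obtain ⟨x, y, h1, h2, rfl⟩ := ex_of_mul h
  rw [map_add]; exact add_le_add (a x h1) (b y h2)

theorem Le.mul_low (a : Le w γ G) (b : Low w δ H) : Low w (γ + δ) (G * H) := fun m h => by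
  obtain ⟨x, y, h1, h2, rfl⟩ := ex_of_mul h
  rw [map_add]; exact add_lt_add_of_le_of_lt (a x h1) (b y h2)

theorem Top.le (a : Top w γ G G0) : Le w γ G := by
  have := (Le.of_hom a.1).add a.2.le
  simpa using this

theorem Top.self (a : G.IsWeightedHomogeneous w γ) : Top w γ G G := ⟨a, by simpa using Low.zero⟩

theorem Top.of_low (a : Low w γ G) : Top w γ G 0 :=
  ⟨isWeightedHomogeneous_zero _ _ _, by simpa using a⟩

theorem Top.add (a : Top w γ G G0) (b : Top w γ H H0) : Top w γ (G + H) (G0 + H0) :=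
  ⟨a.1.add b.1, by have := a.2.add b.2; convert this using 1; ring⟩

theorem Top.neg (a : Top w γ G G0) : Top w γ (-G) (-G0) :=
  ⟨a.1.neg, by have := a.2.neg; convert this using 1; ring⟩

theorem Top.sub (a : Top w γ G G0) (b : Top w γ H H0) : Top w γ (G - H) (G0 - H0) := by
  simpa [sub_eq_add_neg] using a.add b.neg

theorem Top.mul (a : Top w γ G G0) (b : Top w δ H H0) : Top w (γ + δ) (G * H) (G0 * H0) := by
  refine ⟨a.1.mul b.1, ?_⟩
  have h1 := b.le.mul_low a.2
  have h2 := (Le.of_hom a.1).mul_low b.2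
  rw [add_comm δ γ] at h1
  convert h1.add h2 using 1; ring

theorem Top.pow (a : Top w γ G G0) (n : ℕ) : Top w (n * γ) (G ^ n) (G0 ^ n) := by
  induction n with
  | zero => simpa using Top.self (isWeightedHomogeneous_one k w)
  | succ n ih =>
    have := ih.mul a
    rw [← pow_succ, ← pow_succ] at this
    convert this using 1; push_cast; ring

theorem Top.unique (a : Top w γ G G0) (b : Top w γ G H0) : G0 = H0 := by
  have h1 := a.1.sub b.1
  have h2 : Low w γ (G0 - H0) := by have := b.2.add a.2.neg; convert this using 1; ring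
  rw [← sub_eq_zero]
  ext m
  by_contra h
  exact (h2 m h).ne (h1 h)

theorem Top.coeff_eq (a : Top w γ G G0) {m : σ →₀ ℕ} (h : weight w m = γ) :
    coeff m G0 = coeff m G := by
  by_contra h1
  have : coeff m (G - G0) ≠ 0 := by rw [coeff_sub]; exact sub_ne_zero.2 (Ne.symm h1)
  exact (a.2 m this).ne h

theorem Top.supp (a : Top w γ G G0) {m : σ →₀ ℕ} (h : coeff m G0 ≠ 0) : coeff m G ≠ 0 := by
  rwa [← a.coeff_eq (a.1 h)]

theorem Le.top (a : Le w γ G) : ∃ G0, Top w γ G G0 := by
  classical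
  refine ⟨weightedHomogeneousComponent w γ G,
    weightedHomogeneousComponent_isWeightedHomogeneous _ _, fun m h => ?_⟩
  rw [coeff_sub, coeff_weightedHomogeneousComponent] at h
  split_ifs at h with h1
  · simp at h
  · exact lt_of_le_of_ne (a m (by simpa using h)) h1

theorem ex_top (w : σ → ℚ) (h : G ≠ 0) : ∃ γ G0, G0 ≠ 0 ∧ Top w γ G G0 := by
  obtain ⟨m, hm, h1⟩ := G.support.exists_max_image (fun m => weight w m) (support_nonempty.2 h)
  obtain ⟨G0, h0⟩ := Le.top (w := w) (γ := weight w m) (G := G)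
    (fun a ha => h1 a (mem_support_iff.2 ha))
  refine ⟨_, G0, fun e => ?_, h0⟩
  have := h0.coeff_eq rfl
  rw [e] at this
  exact (mem_support_iff.1 hm) (by simpa using this.symm)

theorem Top.dvd [IsDomain k] {F F0 : MvPolynomial σ k} {β : ℚ} (hF : Top w β F F0)
    (hF0 : F0 ≠ 0) (a : Top w γ G G0) (hd : F ∣ G) : F0 ∣ G0 := by
  by_cases h0 : G0 = 0
  · simp [h0]
  obtain ⟨Q, rfl⟩ := hd
  by_cases hQ : Q = 0
  · subst hQ
    rw [a.unique (Top.of_low (by simpa using Low.zero))]; simp
  obtain ⟨δ, Q0, hQ0, hq⟩ := ex_top w hQ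
  have b := hF.mul hq
  rcases lt_trichotomy γ (β + δ) with h | h | h
  · exfalso
    have := b.unique (Top.of_low (a.le.low h))
    exact mul_ne_zero hF0 hQ0 this
  · subst h; rw [a.unique b]; exact dvd_mul_right _ _
  · exact absurd (a.unique (Top.of_low (b.le.low h))) h0

theorem Top.sum {ι : Type*} (s : Finset ι) (f f0 : ι → MvPolynomial σ k)
    (h : ∀ i ∈ s, Top w γ (f i) (f0 i)) : Top w γ (∑ i ∈ s, f i) (∑ i ∈ s, f0 i) := by
  classical
  induction s using Finset.induction_on with
  | empty => simpa using Top.of_low Low.zero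
  | insert a s ha ih =>
    rw [Finset.sum_insert ha, Finset.sum_insert ha]
    exact (h a (by simp)).add (ih fun i hi => h i (by simp [hi]))

theorem Top.mono {v : τ → ℚ} {g g0 : σ → MvPolynomial τ k} (h : ∀ i, Top v (w i) (g i) (g0 i))
    (m : σ →₀ ℕ) (c : k) :
    Top v (weight w m) (aeval g (monomial m c)) (aeval g0 (monomial m c)) := by
  induction m using Finsupp.induction with
  | zero => simpa using Top.self (isWeightedHomogeneous_C v c)
  | single_add i n m _ _ ih =>
    have := ((h i).pow n).mul ih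
    rw [monomial_single_add, map_mul, map_mul, map_pow, map_pow, aeval_X, aeval_X, map_add,
      Finsupp.weight_single]
    simpa using this

theorem Top.aev {v : τ → ℚ} {g g0 : σ → MvPolynomial τ k} (h : ∀ i, Top v (w i) (g i) (g0 i))
    (a : Top w γ G G0) : Top v γ (aeval g G) (aeval g0 G0) := by
  have h1 : Top v γ (aeval g G0) (aeval g0 G0) := by
    conv => enter [3]; rw [G0.as_sum, map_sum]
    conv => enter [4]; rw [G0.as_sum, map_sum]
    refine Top.sum _ _ _ fun m hm => ?_
    rw [← a.1 (mem_support_iff.1 hm)]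
    exact Top.mono h _ _
  have h2 : Top v γ (aeval g (G - G0)) 0 := by
    rw [(G - G0).as_sum, map_sum]
    have := Top.sum (w := v) (γ := γ) (G - G0).support
      (fun m => aeval g (monomial m (coeff m (G - G0)))) (fun _ => 0) fun m hm =>
        Top.of_low ((Top.mono h _ _).le.low (a.2 m (mem_support_iff.1 hm)))
    simpa using this
  simpa using h1.add h2

end Pool.Agent.H.MP_bc0af3_ag
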